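import Pool.Agent.W92.ET.Base

/-!
# Project ET: the contradiction
-/

set_option autoImplicit false

open MeasureTheory

namespace Pool.Agent.W923.ET

open Pool.Agent.W92.ET

lemma harm (N : ℕ) : ∑ d ∈ Finset.Icc 1 N, 1 / (d : ℝ) ≤ 1 + Real.log N := by
  have h := harmonic_le_one_add_log N
  rw [harmonic_eq_sum_Icc] at h
  push_cast at h
  simpa only [one_div] using h

lemma tr_mem {A : Set ℕ} {N a : ℕ} (h : a ∈ tr A N) : 1 ≤ a ∧ a ≤ N ∧ a ∈ A := by
  classical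
  unfold tr at h
  rw [Finset.mem_filter, Finset.mem_Icc] at h
  exact ⟨h.1.1, h.1.2, h.2⟩

lemma bet_EE (h4 : S_EE) : bet ^ 2 * EE ≤ 3 := by
  unfold S_EE at h4
  rw [h4]
  unfold bet
  have hp : Real.pi ≠ 0 := Real.pi_ne_zero
  have e : (34675 / 10000 / Real.pi) ^ 2 * (Real.pi ^ 2 * (306589 / 1228800)) =
      (34675 / 10000) ^ 2 * (306589 / 1228800) := by
    field_simp
  rw [e]
  norm_num

lemma EE_nonneg (h4 : S_EE) : 0 ≤ bet ^ 2 * EE := by
  unfold S_EE at h4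
  rw [h4]
  positivity

theorem main (h1 : S_energy) (h2 : S_quad) (h3 : S_first) (h4 : S_EE) (h5 : S_recip)
    (h6 : S_count) : S_main := by
  intro A n₀ h0 hA
  obtain ⟨C3, hC3⟩ := h5 A n₀ (fun n hn => (hA n hn).2)
  obtain ⟨C1, hC1⟩ := h6 A n₀ h0 hA C3 hC3
  obtain ⟨g, C2, hg, hfirst⟩ := h3
  have key : ∀ N : ℕ, 1 ≤ N → g * (Real.log N - C1) ≤ C1 + 3 + |C2| * C3 := by
    intro N hN
    have hmem : ∀ a ∈ tr A N, 1 ≤ a ∧ a ≤ N := fun a ha => ⟨(tr_mem ha).1, (tr_mem ha).2.1⟩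
    have e1 := h1 (tr A N) N hmem bet
    have e2 := h2 (tr A N) N hmem
    have e3 := hfirst (tr A N) (fun a ha => (hmem a ha).1)
    obtain ⟨e6, e7⟩ := hC1 N hN
    have e5 := hC3 N
    have hs : 0 ≤ ∑ a ∈ tr A N, 1 / (a : ℝ) := Finset.sum_nonneg fun a _ => by positivity
    have hH := harm N
    have hH0 : 0 ≤ ∑ d ∈ Finset.Icc 1 N, 1 / (d : ℝ) := Finset.sum_nonneg fun a _ => by positivity
    have hlog : 0 ≤ Real.log N := Real.log_nonneg (by exact_mod_cast hN)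
    have e8 : bet ^ 2 * EE * ∑ d ∈ Finset.Icc 1 N, 1 / (d : ℝ) ≤ 3 * (1 + Real.log N) :=
      mul_le_mul (bet_EE h4) hH hH0 (by norm_num)
    have e9 : ∑ x ∈ Pr (tr A N), 1 / ((x.1 : ℝ) + x.2) *
        (GG ((((x.2 : ℝ) - x.1) / (x.1 + x.2)) ^ 2) 0 + 3) =
        ∑ x ∈ Pr (tr A N), 1 / ((x.1 : ℝ) + x.2) *
          GG ((((x.2 : ℝ) - x.1) / (x.1 + x.2)) ^ 2) 0 + 3 * RR (tr A N) := by
      unfold RR
      rw [Finset.mul_sum, ← Finset.sum_add_distrib]
      refine Finset.sum_congr rfl fun x _ => ?_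
      ring
    have e10 : C2 * ∑ a ∈ tr A N, 1 / (a : ℝ) ≤ |C2| * C3 :=
      (mul_le_mul_of_nonneg_right (le_abs_self C2) hs).trans
        (mul_le_mul_of_nonneg_left e5 (abs_nonneg C2))
    have e11 : g * (Real.log N - C1) ≤ g * RR (tr A N) := mul_le_mul_of_nonneg_left e7 hg.le
    rw [e9] at e3
    linarith
  have hlim : Filter.Tendsto (fun N : ℕ => g * (Real.log N - C1)) Filter.atTop Filter.atTop := by
    have := (Real.tendsto_log_atTop.comp tendsto_natCast_atTop_atTop)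
    exact (Filter.tendsto_atTop_add_const_right _ (-C1) this).const_mul_atTop hg
  obtain ⟨N, hN, hN1⟩ := ((hlim.eventually_gt_atTop (C1 + 3 + |C2| * C3)).and
    (Filter.eventually_ge_atTop 1)).exists
  have := key N hN1
  linarith

end Pool.Agent.W923.ET

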